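import Pool.Agent.H78.OX.Targets
import Pool.Agent.H12.OQ.LKG

/-! Module YXX of the board ox_modules (MP_0f8dca_lc, helper78). -/

set_option autoImplicit false

namespace Pool.Agent.H47.OX

open Finset Filter Pool.Agent.H6.NB Pool.Agent.H70.OQ Pool.Agent.H70.EH Pool.Agent.H78.XQ
  Pool.Agent.H78.OX

theorem yxx (hEAX : T_EAX) : T_YXX := by
  classical
  intro A σ O s hB hD
  have hsh : sh O = sh σ := by
    funext w
    refine Pool.Agent.H12.OQ.LKG.Bld_not_key hB (fun s' h => ?_)
    unfold key at h
    have h2 := (List.cons.inj (List.cons.inj h).2).1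
    exact absurd h2 (by decide)
  have hp : (exc s).prob (sh O) = if σ (key s) then 1 else 0 := by
    rw [hsh]
    exact hEAX (sh σ) s (σ (key s)) hD
  have hk := Pool.Agent.H12.OQ.LKG.Bld_key hB s
  unfold yesX
  rw [hp, hk]
  constructor
  · intro hA
    cases hσ : σ (key s) <;> simp [hA]
  · intro hA
    cases hσ : σ (key s) <;> simp [hA]

end Pool.Agent.H47.OX
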